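import Mathlib

/-!
# Positivity of mirror deformed Markov numbers

All coefficients `c_j`, `0 ≤ j ≤ deg m`, of every mirror deformed Markov number `m` are positive.
-/

open Polynomial LaurentPolynomial

namespace Pool.Agent.Results.MP_99184a_co.Positivity

/-- The symmetrisation `X(q) = x(q) x(q⁻¹)` of a polynomial `x`, a Laurent polynomial. -/
noncomputable def sym (x : ℤ[X]) : ℤ[T;T⁻¹] := toLaurent x * invert (toLaurent x)

/-- `d` is the polynomial `q^{deg c} (q^s X(q) + C(q)) / ã(q)`, where `ã = a.reverse` is the mirror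
image of `a`. -/
def IsMutation (s : ℤ) (x c a d : ℤ[X]) : Prop :=
  toLaurent d * toLaurent a.reverse = T (c.natDegree : ℤ) * (T s * sym x + sym c)

open Classical in
/-- The polynomial `q^{deg c} (q^s X(q) + C(q)) / ã(q)` (and `0` if this is not a polynomial). -/
noncomputable def mutate (s : ℤ) (x c a : ℤ[X]) : ℤ[X] :=
  if h : ∃ d, IsMutation s x c a d then h.choose else 0

/-- A triple `(a, b, c)` of polynomials together with the sign of the mutation that produced it. -/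
structure Node where
  /-- first entry -/
  a : ℤ[X]
  /-- second entry -/
  b : ℤ[X]
  /-- third entry -/
  c : ℤ[X]
  /-- the sign, `1` or `-1` -/
  sign : ℤ

/-- The triple `(1, 1+q, 1+2q+2q²)`, produced by a positive mutation. -/
noncomputable def root : Node := ⟨1, 1 + X, 1 + 2 * X + 2 * X ^ 2, 1⟩

/-- The left-edge child, obtained with the same sign. -/
noncomputable def Node.left (t : Node) : Node :=
  ⟨t.a, t.c, mutate t.sign t.a t.c t.b, t.sign⟩

/-- The right-edge child, obtained with the opposite sign. -/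
noncomputable def Node.right (t : Node) : Node :=
  ⟨t.b, t.c, mutate (-t.sign) t.b t.c t.a, -t.sign⟩

/-- The nodes of the mirror Markov tree below (and including) `(1, 1+q, 1+2q+2q²)`. -/
inductive InTree : Node → Prop
  | root : InTree root
  | left {t : Node} : InTree t → InTree t.left
  | right {t : Node} : InTree t → InTree t.right

/-- The mirror deformed Markov numbers: the entries of the triples `(1,1,1)`, `(1,1,1+q)` and of
all triples of the tree below `(1, 1+q, 1+2q+2q²)`. -/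
def IsMirrorMarkov (m : ℤ[X]) : Prop :=
  m = 1 ∨ m = 1 + X ∨ ∃ t, InTree t ∧ (m = t.a ∨ m = t.b ∨ m = t.c)

/-! ### Coefficientwise order -/

/-- coefficientwise order -/
def Le (p r : ℤ[X]) : Prop := ∀ n, p.coeff n ≤ r.coeff n

theorem Le.trans {p r s : ℤ[X]} (h1 : Le p r) (h2 : Le r s) : Le p s :=
  fun n => (h1 n).trans (h2 n)

theorem Le.mul_left {p r s : ℤ[X]} (h : Le p r) (h0 : Le 0 s) : Le (s * p) (s * r) := by
  intro n
  rw [coeff_mul, coeff_mul]
  refine Finset.sum_le_sum fun x _ => ?_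
  exact mul_le_mul_of_nonneg_left (h _) (by simpa using h0 x.1)

theorem Le.mul_right {p r s : ℤ[X]} (h : Le p r) (h0 : Le 0 s) : Le (p * s) (r * s) := by
  rw [mul_comm p s, mul_comm r s]; exact h.mul_left h0

theorem Le.X_pow_mul {p r : ℤ[X]} (h : Le p r) (i : ℕ) : Le (X ^ i * p) (X ^ i * r) := by
  refine h.mul_left ?_
  intro n
  rw [coeff_zero, coeff_X_pow]
  split_ifs <;> norm_num

/-- degree exactly `N`, all coefficients up to `N` positive -/
def Good (p : ℤ[X]) (N : ℕ) : Prop := p.natDegree = N ∧ ∀ n ≤ N, 1 ≤ p.coeff n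

theorem Good.nonneg {p : ℤ[X]} {N : ℕ} (h : Good p N) : Le 0 p := by
  intro n
  rw [coeff_zero]
  by_cases hn : n ≤ N
  · exact le_trans zero_le_one (h.2 n hn)
  · rw [coeff_eq_zero_of_natDegree_lt (by rw [h.1]; omega)]

theorem good_of {p : ℤ[X]} {N : ℕ} (h1 : p.natDegree ≤ N) (h2 : ∀ n ≤ N, 1 ≤ p.coeff n) :
    Good p N := by
  refine ⟨natDegree_eq_of_le_of_coeff_ne_zero h1 ?_, h2⟩
  have := h2 N le_rfl
  omega

theorem Good.ne_zero {p : ℤ[X]} {N : ℕ} (h : Good p N) : p ≠ 0 := by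
  rintro rfl
  have := h.2 0 (Nat.zero_le _)
  simp at this

theorem Good.two_le {p : ℤ[X]} {N : ℕ} (h : Good p N) {i j : ℕ} (hij : i ≠ j) (hi : i ≤ N)
    (hj : j ≤ N) : Le (X ^ i + X ^ j) p := by
  intro n
  rw [coeff_add, coeff_X_pow, coeff_X_pow]
  have h0 := h.nonneg n
  rw [coeff_zero] at h0
  split_ifs with h1 h2 h2
  · exact absurd (h1.symm.trans h2) hij
  · simpa using h.2 n (h1 ▸ hi)
  · simpa using h.2 n (h2 ▸ hj)
  · simpa using h0

theorem dom_step {h c b : ℤ[X]} {N M : ℕ} (hN : 1 ≤ N) (hh : Good h N) (hc : Good c M)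
    (hd : ∀ l ≤ N, Le (X ^ l * b) c) :
    ∀ i ≤ N, Le (X ^ i * c) (h * c - X ^ N * b) := by
  intro i hi
  obtain ⟨j, hj, hij⟩ : ∃ j ≤ N, i ≠ j := by
    by_cases h0 : i = 0
    · exact ⟨1, hN, by omega⟩
    · exact ⟨0, Nat.zero_le _, h0⟩
  have h1 := (hh.two_le hij hi hj).mul_right hc.nonneg
  have h2 := (hd (N - j) (Nat.sub_le _ _)).X_pow_mul j
  rw [← mul_assoc, ← pow_add, Nat.add_sub_cancel' hj] at h2
  intro n
  have h3 := h1 n
  have h4 := h2 n
  rw [add_mul, coeff_add] at h3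
  rw [coeff_sub]
  linarith

theorem dom_trans {a c d : ℤ[X]} {M N : ℕ} (h1 : ∀ l ≤ M, Le (X ^ l * a) c)
    (h2 : ∀ i ≤ N, Le (X ^ i * c) d) : ∀ k ≤ M + N, Le (X ^ k * a) d := by
  intro k hk
  have h3 := (h1 (k - min k N) (by omega)).X_pow_mul (min k N)
  rw [← mul_assoc, ← pow_add, show min k N + (k - min k N) = k by omega] at h3
  exact h3.trans (h2 _ (min_le_right _ _))

theorem Good.reverse {p : ℤ[X]} {N : ℕ} (h : Good p N) : Good p.reverse N := by
  refine good_of ((reverse_natDegree_le p).trans h.1.le) fun n hn => ?_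
  rw [coeff_reverse, h.1, revAt_le hn]
  exact h.2 _ (Nat.sub_le _ _)

theorem Good.reverse_reverse {p : ℤ[X]} {N : ℕ} (h : Good p N) : p.reverse.reverse = p := by
  ext n
  rw [coeff_reverse, coeff_reverse, h.reverse.1, h.1, revAt_invol]

theorem dom_reverse {p r : ℤ[X]} {P R M : ℕ} (hp : Good p P) (hr : Good r R) (hM : M + R = P)
    (h : ∀ i ≤ M, Le (X ^ i * r) p) : ∀ i ≤ M, Le (X ^ i * r.reverse) p.reverse := by
  intro i hi n
  have h0 : ∀ m, 0 ≤ p.reverse.coeff m := fun m => by simpa using hp.reverse.nonneg m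
  rw [coeff_X_pow_mul']
  split_ifs with hin
  · rw [coeff_reverse, hr.1]
    by_cases hn : n - i ≤ R
    · rw [revAt_le hn, coeff_reverse, hp.1, revAt_le (by omega)]
      have h1 := h (M - i) (Nat.sub_le _ _) (P - n)
      rw [coeff_X_pow_mul', if_pos (by omega)] at h1
      rwa [show P - n - (M - i) = R - (n - i) by omega] at h1
    · rw [revAt_eq_self_of_lt (by omega), coeff_eq_zero_of_natDegree_lt (by rw [hr.1]; omega)]
      exact h0 _
  · exact h0 _

theorem special {h c b : ℤ[X]} {N M : ℕ} (hN : 1 ≤ N) (hM : 1 ≤ M) (hh : Good h N) (hc : Good c M)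
    (hd : ∀ l ≤ N, Le (X ^ l * b) c) :
    ∀ i ≤ M, Le (X ^ i * h) (h * c - X ^ N * b) := by
  intro i hi
  have hg : Le 0 (c - X ^ i) := by
    intro n
    rw [coeff_zero, coeff_sub, coeff_X_pow]
    have h0 := hc.nonneg n
    rw [coeff_zero] at h0
    split_ifs with h1
    · have := hc.2 n (h1 ▸ hi); omega
    · omega
  -- choose the two exponents
  obtain ⟨j, k, hj, hk, hjk, m, hm, hmi, hmk⟩ : ∃ j k : ℕ, j ≤ N ∧ k ≤ N ∧ j ≠ k ∧
      ∃ m : ℕ, m ≤ M ∧ m ≠ i ∧ m + k = i + j := by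
    by_cases h0 : i = 0
    · exact ⟨1, 0, hN, Nat.zero_le _, by omega, 1, hM, by omega, by omega⟩
    · exact ⟨0, 1, Nat.zero_le _, hN, by omega, i - 1, by omega, by omega, by omega⟩
  have h1 := (hh.two_le hjk hj hk).mul_right hg
  have h2 := (hd (N - j) (Nat.sub_le _ _)).X_pow_mul j
  rw [← mul_assoc, ← pow_add, Nat.add_sub_cancel' hj] at h2
  have h3 := (hc.two_le hmi hm hi).X_pow_mul k
  have h4 : (X ^ j + X ^ k) * (c - X ^ i) = X ^ j * c + X ^ k * c - X ^ k * (X ^ m + X ^ i) := by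
    have : (X : ℤ[X]) ^ j * X ^ i = X ^ k * X ^ m := by
      rw [← pow_add, ← pow_add]; congr 1; omega
    linear_combination -this
  intro n
  have h5 := h1 n
  have h6 := h2 n
  have h7 := h3 n
  rw [h4] at h5
  rw [mul_sub, coeff_sub, coeff_sub, coeff_add] at h5
  rw [coeff_sub]
  rw [mul_comm (X ^ i) h]
  linarith

/-- The inductive invariant. -/
structure Inv (a b c ha hb hc : ℤ[X]) (α β : ℕ) (ε : ℤ) : Prop where
  ga : Good a α
  gb : Good b β
  gc : Good c (α + β + 1)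
  gha : Good ha (α + 1)
  ghb : Good hb (β + 1)
  ghc : Good hc (α + β + 2)
  Xb : ∀ l ≤ α + 1, Le (X ^ l * b) c
  Xa : ∀ l ≤ β + 1, Le (X ^ l * a) c
  D1 : ∀ l ≤ α + 1, Le (X ^ l * hb) hc
  D3 : ∀ l ≤ β + 1, Le (X ^ l * ha) hc
  D4 : ∀ l ≤ β + 1, Le (X ^ l * ha) hc.reverse
  Ia : toLaurent ha * toLaurent c * invert (toLaurent b)
    = T ((α + 1 : ℕ) : ℤ) * (sym b + sym c + T ε * sym a)
  Ib : toLaurent hb * toLaurent c * invert (toLaurent a)
    = T ((β + 1 : ℕ) : ℤ) * (sym a + sym c + T (-ε) * sym b)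
  Ic : toLaurent hc * invert (toLaurent a) * toLaurent b
    = T ((β + 1 : ℕ) : ℤ) * (sym c + T (-ε) * (sym a + sym b))

theorem good_of_dom {c d : ℤ[X]} {M N : ℕ} (hc : Good c M) (h : ∀ i ≤ N, Le (X ^ i * c) d)
    (hd : d.natDegree ≤ M + N) : Good d (M + N) := by
  refine good_of hd fun n hn => ?_
  have h1 := h (min n N) (min_le_right _ _) n
  rw [coeff_X_pow_mul', if_pos (min_le_left _ _)] at h1
  exact (hc.2 _ (by omega)).trans h1

theorem natDegree_step {h c b : ℤ[X]} {N M K : ℕ} (hh : Good h N) (hc : Good c M) (hb : Good b K)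
    (hK : K ≤ M) : (h * c - X ^ N * b).natDegree ≤ M + N := by
  refine (natDegree_sub_le _ _).trans (max_le ?_ ?_)
  · exact (natDegree_mul_le).trans (by rw [hh.1, hc.1]; omega)
  · exact (natDegree_mul_le).trans (by rw [natDegree_X_pow, hb.1]; omega)

/-- The algebra behind the induction step. -/
theorem alg {R : Type*} [CommRing R] [IsDomain R]
    {a a' b b' c c' ha ha' hb hc d d' hd t t' u e e' : R}
    (htt : t * t' = 1) (hee : e * e' = 1) (hb0 : b ≠ 0)
    (h_d : d = ha * c - t * b) (h_d' : d' = ha' * c' - t' * b') (h_hd : hd = ha * hc - t * hb)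
    (Ia : ha * c * b' = t * (b * b' + c * c' + e * (a * a')))
    (Ia' : ha' * c' * b = t' * (b * b' + c * c' + e' * (a * a')))
    (Ib : hb * c * a' = u * (a * a' + c * c' + e' * (b * b')))
    (Ic : hc * a' * b = u * (c * c' + e' * (a * a' + b * b'))) :
    d * b' = t * (c * c' + e * (a * a')) ∧
    t * ha' * d * c' = t * (c * c' + d * d' + e * (a * a')) ∧
    hc * d * a' = t * u * (a * a' + d * d' + e' * (c * c')) ∧
    hd * a' * c = t * u * (d * d' + e' * (a * a' + c * c')) := by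
  have h1 : d * b' = t * (c * c' + e * (a * a')) := by
    rw [h_d]; linear_combination Ia
  have h1' : d' * b = t' * (c * c' + e' * (a * a')) := by
    rw [h_d']; linear_combination Ia'
  have h2 : t * ha' * d * c' = t * (c * c' + d * d' + e * (a * a')) := by
    linear_combination h1 - t * d * h_d' + d * b' * htt
  have h3 : hc * d * a' = t * u * (a * a' + d * d' + e' * (c * c')) := by
    apply mul_left_cancel₀ hb0
    linear_combination d * Ic - (u * d * t) * h1' - u * d * (c * c' + e' * (a * a')) * htt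
      + u * e' * b * h1 + u * b * t * (a * a') * hee
  refine ⟨h1, h2, h3, ?_⟩
  rw [h_hd]
  linear_combination h3 + t * Ic - t * Ib - hc * a' * h_d

theorem invert_invert' (x : ℤ[T;T⁻¹]) : invert (invert x) = x := involutive_invert x

theorem T_mul_T_neg (n : ℤ) : (T n * T (-n) : ℤ[T;T⁻¹]) = 1 := by
  rw [← T_add, add_neg_cancel, T_zero]

theorem toLaurent_rev {p : ℤ[X]} {N : ℕ} (h : Good p N) :
    toLaurent p.reverse = T (N : ℤ) * invert (toLaurent p) := by
  rw [toLaurent_reverse, h.1, mul_comm]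

theorem Inv.left {a b c ha hb hc : ℤ[X]} {α β : ℕ} {ε : ℤ} (h : Inv a b c ha hb hc α β ε) :
    toLaurent (ha * c - X ^ (α + 1) * b) * invert (toLaurent b) =
      T ((α + 1 : ℕ) : ℤ) * (sym c + T ε * sym a) ∧
    Inv a c (ha * c - X ^ (α + 1) * b) ha.reverse hc (ha * hc - X ^ (α + 1) * hb)
      α (α + β + 1) ε := by
  set d := ha * c - X ^ (α + 1) * b with hd
  set hhd := ha * hc - X ^ (α + 1) * hb with hhhd
  have hb0 : toLaurent b ≠ 0 := toLaurent_ne_zero.2 h.gb.ne_zero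
  have e1 : toLaurent d = toLaurent ha * toLaurent c - T ((α + 1 : ℕ) : ℤ) * toLaurent b := by
    rw [hd, map_sub, map_mul, map_mul, toLaurent_X_pow]
  have e2 : invert (toLaurent d) = invert (toLaurent ha) * invert (toLaurent c)
      - T (-((α + 1 : ℕ) : ℤ)) * invert (toLaurent b) := by
    rw [e1, map_sub, map_mul, map_mul, invert_T]
  have e3 : toLaurent hhd = toLaurent ha * toLaurent hc
      - T ((α + 1 : ℕ) : ℤ) * toLaurent hb := by
    rw [hhhd, map_sub, map_mul, map_mul, toLaurent_X_pow]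
  have hIa' : invert (toLaurent ha) * invert (toLaurent c) * toLaurent b
      = T (-((α + 1 : ℕ) : ℤ)) * (toLaurent b * invert (toLaurent b)
        + toLaurent c * invert (toLaurent c) + T (-ε) * (toLaurent a * invert (toLaurent a))) := by
    have := congrArg invert h.Ia
    simp only [sym, map_mul, map_add, invert_T, invert_invert'] at this
    rw [this]; ring
  obtain ⟨k1, k2, k3, k4⟩ := alg (T_mul_T_neg _) (T_mul_T_neg ε) hb0 e1 e2 e3 h.Ia hIa' h.Ib h.Ic
  have hT : (T ((α + 1 : ℕ) : ℤ) * T ((β + 1 : ℕ) : ℤ) : ℤ[T;T⁻¹])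
      = T ((α + β + 1 + 1 : ℕ) : ℤ) := by
    rw [← T_add]; congr 1; push_cast; ring
  have gd : Good d (α + (α + β + 1) + 1) := by
    have h1 := good_of_dom h.gc (dom_step (by omega) h.gha h.gc h.Xb)
      (natDegree_step h.gha h.gc h.gb (by omega))
    rwa [show α + β + 1 + (α + 1) = α + (α + β + 1) + 1 by ring] at h1
  have ghd : Good hhd (α + (α + β + 1) + 2) := by
    have h1 := good_of_dom h.ghc (dom_step (by omega) h.gha h.ghc h.D1)
      (natDegree_step h.gha h.ghc h.ghb (by omega))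
    rwa [show α + β + 2 + (α + 1) = α + (α + β + 1) + 2 by ring] at h1
  have hX : ∀ l ≤ α + 1, Le (X ^ l * c) d := dom_step (by omega) h.gha h.gc h.Xb
  have hD : ∀ l ≤ α + 1, Le (X ^ l * hc) hhd := dom_step (by omega) h.gha h.ghc h.D1
  have hD3 : ∀ l ≤ α + β + 1 + 1, Le (X ^ l * ha) hhd := by
    have := dom_trans h.D3 hD
    rwa [show β + 1 + (α + 1) = α + β + 1 + 1 by ring] at this
  refine ⟨k1, ⟨h.ga, h.gc, gd, h.gha.reverse, h.ghc, ghd, hX, ?_, hD, ?_, ?_, ?_, ?_, ?_⟩⟩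
  · have := dom_trans h.Xa hX
    rwa [show β + 1 + (α + 1) = α + β + 1 + 1 by ring] at this
  · have h5 := dom_reverse h.ghc.reverse h.gha (show (β + 1) + (α + 1) = α + β + 2 by ring) h.D4
    rw [h.ghc.reverse_reverse] at h5
    have := dom_trans h5 hD
    rwa [show β + 1 + (α + 1) = α + β + 1 + 1 by ring] at this
  · exact dom_reverse ghd h.gha (by ring) hD3
  · rw [toLaurent_rev h.gha]
    exact k2
  · rw [← hT]
    exact k3
  · rw [← hT]
    exact k4

theorem Inv.right {a b c ha hb hc : ℤ[X]} {α β : ℕ} {ε : ℤ} (h : Inv a b c ha hb hc α β ε) :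
    toLaurent (hb * c - X ^ (β + 1) * a) * invert (toLaurent a) =
      T ((β + 1 : ℕ) : ℤ) * (sym c + T (-ε) * sym b) ∧
    Inv b c (hb * c - X ^ (β + 1) * a) hb.reverse hc.reverse (hb * hc.reverse - X ^ (β + 1) * ha)
      β (α + β + 1) (-ε) := by
  set d := hb * c - X ^ (β + 1) * a with hd
  set hhd := hb * hc.reverse - X ^ (β + 1) * ha with hhhd
  have ha0 : toLaurent a ≠ 0 := toLaurent_ne_zero.2 h.ga.ne_zero
  have e1 : toLaurent d = toLaurent hb * toLaurent c - T ((β + 1 : ℕ) : ℤ) * toLaurent a := by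
    rw [hd, map_sub, map_mul, map_mul, toLaurent_X_pow]
  have e2 : invert (toLaurent d) = invert (toLaurent hb) * invert (toLaurent c)
      - T (-((β + 1 : ℕ) : ℤ)) * invert (toLaurent a) := by
    rw [e1, map_sub, map_mul, map_mul, invert_T]
  have e3 : toLaurent hhd = toLaurent hb * toLaurent hc.reverse
      - T ((β + 1 : ℕ) : ℤ) * toLaurent ha := by
    rw [hhhd, map_sub, map_mul, map_mul, toLaurent_X_pow]
  have hIb' : invert (toLaurent hb) * invert (toLaurent c) * toLaurent a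
      = T (-((β + 1 : ℕ) : ℤ)) * (toLaurent a * invert (toLaurent a)
        + toLaurent c * invert (toLaurent c)
        + T (- -ε) * (toLaurent b * invert (toLaurent b))) := by
    have := congrArg invert h.Ib
    simp only [sym, map_mul, map_add, invert_T, invert_invert'] at this
    rw [this]; ring
  have hIc' : toLaurent hc.reverse * invert (toLaurent b) * toLaurent a
      = T ((α + 1 : ℕ) : ℤ) * (toLaurent c * invert (toLaurent c)
        + T (- -ε) * (toLaurent b * invert (toLaurent b) + toLaurent a * invert (toLaurent a))) := by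
    have := congrArg invert h.Ic
    simp only [sym, map_mul, map_add, invert_T, invert_invert'] at this
    rw [toLaurent_rev h.ghc]
    have hT : (T ((α + β + 2 : ℕ) : ℤ) : ℤ[T;T⁻¹])
        = T ((α + 1 : ℕ) : ℤ) * T ((β + 1 : ℕ) : ℤ) := by
      rw [← T_add]; congr 1; push_cast; ring
    rw [hT]
    linear_combination T ((α + 1 : ℕ) : ℤ) * T ((β + 1 : ℕ) : ℤ) * this
      + T ((α + 1 : ℕ) : ℤ) * (toLaurent c * invert (toLaurent c)
        + T (- -ε) * (toLaurent b * invert (toLaurent b) + toLaurent a * invert (toLaurent a)))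
        * (T_mul_T_neg ((β + 1 : ℕ) : ℤ))
  have hIa' : toLaurent ha * toLaurent c * invert (toLaurent b)
      = T ((α + 1 : ℕ) : ℤ) * (toLaurent b * invert (toLaurent b)
        + toLaurent c * invert (toLaurent c)
        + T (- -ε) * (toLaurent a * invert (toLaurent a))) := by
    rw [neg_neg]; exact h.Ia
  obtain ⟨k1, k2, k3, k4⟩ := alg (T_mul_T_neg _) (T_mul_T_neg (-ε)) ha0 e1 e2 e3 h.Ib hIb' hIa' hIc'
  have hT : (T ((β + 1 : ℕ) : ℤ) * T ((α + 1 : ℕ) : ℤ) : ℤ[T;T⁻¹])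
      = T ((α + β + 1 + 1 : ℕ) : ℤ) := by
    rw [← T_add]; congr 1; push_cast; ring
  have gd : Good d (β + (α + β + 1) + 1) := by
    have h1 := good_of_dom h.gc (dom_step (by omega) h.ghb h.gc h.Xa)
      (natDegree_step h.ghb h.gc h.ga (by omega))
    rwa [show α + β + 1 + (β + 1) = β + (α + β + 1) + 1 by ring] at h1
  have ghd : Good hhd (β + (α + β + 1) + 2) := by
    have h1 := good_of_dom h.ghc.reverse (dom_step (by omega) h.ghb h.ghc.reverse h.D4)
      (natDegree_step h.ghb h.ghc.reverse h.gha (by omega))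
    rwa [show α + β + 2 + (β + 1) = β + (α + β + 1) + 2 by ring] at h1
  have hX : ∀ l ≤ β + 1, Le (X ^ l * c) d := dom_step (by omega) h.ghb h.gc h.Xa
  have hD : ∀ l ≤ β + 1, Le (X ^ l * hc.reverse) hhd :=
    dom_step (by omega) h.ghb h.ghc.reverse h.D4
  have hD3 : ∀ l ≤ α + β + 1 + 1, Le (X ^ l * hb) hhd :=
    special (by omega) (by omega) h.ghb h.ghc.reverse h.D4
  refine ⟨k1, ⟨h.gb, h.gc, gd, h.ghb.reverse, h.ghc.reverse, ghd, hX, ?_, hD, ?_, ?_, ?_, ?_, ?_⟩⟩
  · have := dom_trans h.Xb hX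
    rwa [show α + 1 + (β + 1) = α + β + 1 + 1 by ring] at this
  · have h5 := dom_reverse h.ghc h.ghb (show (α + 1) + (β + 1) = α + β + 2 by ring) h.D1
    have := dom_trans h5 hD
    rwa [show α + 1 + (β + 1) = α + β + 1 + 1 by ring] at this
  · exact dom_reverse ghd h.ghb (by ring) hD3
  · rw [toLaurent_rev h.ghb]
    exact k2
  · rw [← hT]
    exact k3
  · rw [← hT]
    exact k4

/-- explicit cubic polynomials -/
noncomputable def P4 (a0 a1 a2 a3 : ℤ) : ℤ[X] :=
  Polynomial.C a0 + Polynomial.C a1 * X + Polynomial.C a2 * X ^ 2 + Polynomial.C a3 * X ^ 3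

theorem coeff_P4 (a0 a1 a2 a3 : ℤ) (n : ℕ) : (P4 a0 a1 a2 a3).coeff n =
    if n = 0 then a0 else if n = 1 then a1 else if n = 2 then a2 else if n = 3 then a3 else 0 := by
  unfold P4
  rcases n with _ | _ | _ | _ | n <;>
    simp only [coeff_add, coeff_C_mul, coeff_X_pow, coeff_X, Polynomial.coeff_C] <;> simp

theorem natDegree_P4_le (a0 a1 a2 a3 : ℤ) : (P4 a0 a1 a2 a3).natDegree ≤ 3 := by
  rw [natDegree_le_iff_coeff_eq_zero]
  intro n hn
  rw [coeff_P4]
  simp only [show n ≠ 0 by omega, show n ≠ 1 by omega, show n ≠ 2 by omega, show n ≠ 3 by omega,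
    if_false]

theorem le_P4 {a0 a1 a2 a3 b0 b1 b2 b3 : ℤ} (h0 : a0 ≤ b0) (h1 : a1 ≤ b1) (h2 : a2 ≤ b2)
    (h3 : a3 ≤ b3) : Le (P4 a0 a1 a2 a3) (P4 b0 b1 b2 b3) := by
  intro n
  rw [coeff_P4, coeff_P4]
  split_ifs <;> first | assumption | exact le_rfl

theorem good_P4 {a0 a1 a2 a3 : ℤ} {N : ℕ} (hN : N ≤ 3)
    (h : ∀ n ≤ 3, (n ≤ N → 1 ≤ (P4 a0 a1 a2 a3).coeff n) ∧ (N < n → (P4 a0 a1 a2 a3).coeff n = 0)) :
    Good (P4 a0 a1 a2 a3) N := by
  refine good_of ?_ fun n hn => (h n (hn.trans hN)).1 hn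
  rw [natDegree_le_iff_coeff_eq_zero]
  intro n hn
  by_cases h3 : n ≤ 3
  · exact (h n h3).2 hn
  · exact coeff_eq_zero_of_natDegree_lt (lt_of_le_of_lt (natDegree_P4_le _ _ _ _) (by omega))

theorem X_mul_P4 (a0 a1 a2 : ℤ) : X * P4 a0 a1 a2 0 = P4 0 a0 a1 a2 := by
  unfold P4; simp only [map_zero]; ring

theorem eq_one : (1 : ℤ[X]) = P4 1 0 0 0 := by unfold P4; simp
theorem eq_b : (1 + X : ℤ[X]) = P4 1 1 0 0 := by unfold P4; simp
theorem eq_c : (1 + 2 * X + 2 * X ^ 2 : ℤ[X]) = P4 1 2 2 0 := by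
  unfold P4; simp

theorem toLaurent_P4 (a0 a1 a2 a3 : ℤ) : toLaurent (P4 a0 a1 a2 a3) =
    ((a0 : ℤ[T;T⁻¹]) + (a1 : ℤ[T;T⁻¹]) * T 1 + (a2 : ℤ[T;T⁻¹]) * T 1 ^ 2
      + (a3 : ℤ[T;T⁻¹]) * T 1 ^ 3 : ℤ[T;T⁻¹]) := by
  unfold P4
  simp [map_add, map_mul, map_pow]

theorem invert_P4 (a0 a1 a2 a3 : ℤ) : invert (toLaurent (P4 a0 a1 a2 a3)) =
    ((a0 : ℤ[T;T⁻¹]) + (a1 : ℤ[T;T⁻¹]) * T (-1) + (a2 : ℤ[T;T⁻¹]) * T (-1) ^ 2
      + (a3 : ℤ[T;T⁻¹]) * T (-1) ^ 3 : ℤ[T;T⁻¹]) := by
  rw [toLaurent_P4]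
  simp [map_add, map_mul]

theorem base' : Inv (P4 1 0 0 0) (P4 1 1 0 0) (P4 1 2 2 0) (P4 2 1 0 0) (P4 3 2 1 0)
    (P4 3 6 4 2) 0 1 1 := by
  have hq : (T 1 * T (-1) : ℤ[T;T⁻¹]) = 1 := T_mul_T_neg 1
  have g1 : Good (P4 1 0 0 0) 0 := good_P4 (by norm_num) (by
    intro n hn; rw [coeff_P4]; interval_cases n <;> simp)
  have g2 : Good (P4 1 1 0 0) 1 := good_P4 (by norm_num) (by
    intro n hn; rw [coeff_P4]; interval_cases n <;> simp)
  have g3 : Good (P4 1 2 2 0) 2 := good_P4 (by norm_num) (by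
    intro n hn; rw [coeff_P4]; interval_cases n <;> simp)
  have g4 : Good (P4 2 1 0 0) 1 := good_P4 (by norm_num) (by
    intro n hn; rw [coeff_P4]; interval_cases n <;> simp)
  have g5 : Good (P4 3 2 1 0) 2 := good_P4 (by norm_num) (by
    intro n hn; rw [coeff_P4]; interval_cases n <;> simp)
  have g6 : Good (P4 3 6 4 2) 3 := good_P4 (by norm_num) (by
    intro n hn; rw [coeff_P4]; interval_cases n <;> simp)
  have hrev : (P4 3 6 4 2).reverse = P4 2 4 6 3 := by
    ext n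
    rw [coeff_reverse, g6.1, coeff_P4, coeff_P4]
    by_cases hn : n ≤ 3
    · rw [revAt_le hn]; interval_cases n <;> simp
    · rw [revAt_eq_self_of_lt (by omega)]
      simp only [show n ≠ 0 by omega, show n ≠ 1 by omega, show n ≠ 2 by omega,
        show n ≠ 3 by omega, if_false]
  refine ⟨g1, g2, g3, g4, g5, g6, ?_, ?_, ?_, ?_, ?_, ?_, ?_, ?_⟩
  · intro l hl
    interval_cases l
    · rw [pow_zero, one_mul]; apply le_P4 <;> norm_num
    · rw [pow_one, X_mul_P4]; apply le_P4 <;> norm_num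
  · intro l hl
    interval_cases l
    · rw [pow_zero, one_mul]; apply le_P4 <;> norm_num
    · rw [pow_one, X_mul_P4]; apply le_P4 <;> norm_num
    · rw [pow_two, mul_assoc, X_mul_P4, X_mul_P4]; apply le_P4 <;> norm_num
  · intro l hl
    interval_cases l
    · rw [pow_zero, one_mul]; apply le_P4 <;> norm_num
    · rw [pow_one, X_mul_P4]; apply le_P4 <;> norm_num
  · intro l hl
    interval_cases l
    · rw [pow_zero, one_mul]; apply le_P4 <;> norm_num
    · rw [pow_one, X_mul_P4]; apply le_P4 <;> norm_num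
    · rw [pow_two, mul_assoc, X_mul_P4, X_mul_P4]; apply le_P4 <;> norm_num
  · rw [hrev]
    intro l hl
    interval_cases l
    · rw [pow_zero, one_mul]; apply le_P4 <;> norm_num
    · rw [pow_one, X_mul_P4]; apply le_P4 <;> norm_num
    · rw [pow_two, mul_assoc, X_mul_P4, X_mul_P4]; apply le_P4 <;> norm_num
  · simp only [sym, invert_P4, Nat.cast_one, zero_add]
    simp only [toLaurent_P4]
    push_cast
    linear_combination (-4 * T 1 ^ 2 * T (-1) - 2 * T 1 ^ 2 - 4 * T 1 * T (-1) - 3 * T 1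
      - 2 * T (-1) - 2) * hq
  · simp only [sym, invert_P4]
    simp only [toLaurent_P4]
    have h2 : (T ((1 + 1 : ℕ) : ℤ) : ℤ[T;T⁻¹]) = T 1 ^ 2 := by rw [T_pow]; norm_num
    rw [h2]
    push_cast
    linear_combination (-4 * T 1 ^ 3 * T (-1) - 5 * T 1 ^ 2 * T (-1) - 4 * T 1 ^ 3
      - 3 * T 1 * T (-1) - 9 * T 1 ^ 2 - 8 * T 1 - 3) * hq
  · simp only [sym, invert_P4]
    simp only [toLaurent_P4]
    have h2 : (T ((1 + 1 : ℕ) : ℤ) : ℤ[T;T⁻¹]) = T 1 ^ 2 := by rw [T_pow]; norm_num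
    rw [h2]
    push_cast
    linear_combination (-4 * T 1 ^ 3 * T (-1) - 5 * T 1 ^ 2 * T (-1) - 4 * T 1 ^ 3
      - 3 * T 1 * T (-1) - 9 * T 1 ^ 2 - 9 * T 1 - 3) * hq

theorem base : Inv 1 (1 + X) (1 + 2 * X + 2 * X ^ 2) (P4 2 1 0 0) (P4 3 2 1 0) (P4 3 6 4 2)
    0 1 1 := by
  have h := base'
  rwa [← eq_b, ← eq_c, ← eq_one] at h

theorem mutate_eq {s : ℤ} {x c a d : ℤ[X]} {N K M : ℕ} (ha : Good a N) (hc : Good c M)
    (hM : N + K = M)
    (h : toLaurent d * invert (toLaurent a) = T (K : ℤ) * (sym c + T s * sym x)) :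
    mutate s x c a = d := by
  have h1 : IsMutation s x c a d := by
    unfold IsMutation
    have h2 : (T (c.natDegree : ℤ) : ℤ[T;T⁻¹]) = T (N : ℤ) * T (K : ℤ) := by
      rw [← T_add, hc.1, ← hM]; push_cast; rfl
    rw [toLaurent_rev ha, h2]
    linear_combination T (N : ℤ) * h
  have hex : ∃ d, IsMutation s x c a d := ⟨d, h1⟩
  unfold mutate
  rw [dif_pos hex]
  have h2 : IsMutation s x c a hex.choose := hex.choose_spec
  have h3 : toLaurent a.reverse ≠ 0 := toLaurent_ne_zero.2 ha.reverse.ne_zero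
  unfold IsMutation at h1 h2
  apply Polynomial.toLaurent_injective
  exact mul_right_cancel₀ h3 (h2.trans h1.symm)

theorem inTree_inv {t : Node} (h : InTree t) :
    ∃ ha hb hc α β, Inv t.a t.b t.c ha hb hc α β t.sign := by
  induction h with
  | root => exact ⟨_, _, _, _, _, base⟩
  | @left t _ ih =>
    obtain ⟨ha, hb, hc, α, β, h⟩ := ih
    obtain ⟨h1, h2⟩ := h.left
    have h3 := mutate_eq h.gb h.gc (show β + (α + 1) = α + β + 1 by ring) h1
    refine ⟨ha.reverse, hc, ha * hc - X ^ (α + 1) * hb, α, α + β + 1, ?_⟩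
    show Inv t.a t.c (mutate t.sign t.a t.c t.b) _ _ _ _ _ t.sign
    rw [h3]; exact h2
  | @right t _ ih =>
    obtain ⟨ha, hb, hc, α, β, h⟩ := ih
    obtain ⟨h1, h2⟩ := h.right
    have h3 := mutate_eq h.ga h.gc (show α + (β + 1) = α + β + 1 by ring) h1
    refine ⟨hb.reverse, hc.reverse, hb * hc.reverse - X ^ (β + 1) * ha, β, α + β + 1, ?_⟩
    show Inv t.b t.c (mutate (-t.sign) t.b t.c t.a) _ _ _ _ _ (-t.sign)
    rw [h3]; exact h2

/-- **Main result.** Every coefficient `c_j`, `0 ≤ j ≤ deg m`, of every mirror deformed Markov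
number `m` is positive. -/
theorem result : ∀ m : ℤ[X], IsMirrorMarkov m → ∀ j ≤ m.natDegree, 0 < m.coeff j := by
  have key : ∀ (m : ℤ[X]) (N : ℕ), Good m N → ∀ j ≤ m.natDegree, 0 < m.coeff j := by
    intro m N h j hj
    have := h.2 j (h.1 ▸ hj)
    omega
  rintro m (rfl | rfl | ⟨t, ht, hm⟩)
  · exact key _ _ base.ga
  · exact key _ _ base.gb
  · obtain ⟨ha, hb, hc, α, β, h⟩ := inTree_inv ht
    rcases hm with rfl | rfl | rfl
    · exact key _ _ h.ga
    · exact key _ _ h.gb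
    · exact key _ _ h.gc

end Pool.Agent.Results.MP_99184a_co.Positivity
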